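import Pool.Agent.Run7.h35.EX.Stm

set_option autoImplicit false

namespace Run7.h662.EX

open Run7.h35.EX
open scoped BigOperators

theorem av_add' {T : Type} [Fintype T] (f g : T → ℝ) :
    av (fun t => f t + g t) = av f + av g := by
  unfold av
  rw [Finset.sum_add_distrib, add_div]

theorem av_sub' {T : Type} [Fintype T] (f g : T → ℝ) :
    av (fun t => f t - g t) = av f - av g := by
  unfold av
  rw [Finset.sum_sub_distrib, sub_div]

theorem av_mul' {T : Type} [Fintype T] (c : ℝ) (f : T → ℝ) :
    av (fun t => c * f t) = c * av f := by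
  unfold av
  rw [← Finset.mul_sum, mul_div_assoc]

theorem av_const' {T : Type} [Fintype T] [Nonempty T] (c : ℝ) : av (fun _ : T => c) = c := by
  unfold av
  rw [Finset.sum_const, Finset.card_univ, nsmul_eq_mul]
  have h : (Fintype.card T : ℝ) ≠ 0 := by exact_mod_cast Fintype.card_ne_zero
  field_simp

theorem av_mono' {T : Type} [Fintype T] {f g : T → ℝ} (h : ∀ t, f t ≤ g t) : av f ≤ av g := by
  unfold av
  exact div_le_div_of_nonneg_right (Finset.sum_le_sum fun t _ => h t) (Nat.cast_nonneg _)

theorem av_nonneg' {T : Type} [Fintype T] {f : T → ℝ} (h : ∀ t, 0 ≤ f t) : 0 ≤ av f := by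
  unfold av
  exact div_nonneg (Finset.sum_nonneg fun t _ => h t) (Nat.cast_nonneg _)

theorem av_trans' {V : Type} [Fintype V] [AddCommGroup V] (f : V → ℝ) (v : V) :
    av (fun x => f (x + v)) = av f := by
  unfold av
  congr 1
  exact Equiv.sum_comp (Equiv.addRight v) f

theorem av_comm' {T T' : Type} [Fintype T] [Fintype T'] (f : T → T' → ℝ) :
    (av fun t => av fun t' => f t t') = av fun t' => av fun t => f t t' := by
  unfold av
  rw [← Finset.sum_div, ← Finset.sum_div, Finset.sum_comm, div_div, div_div, mul_comm]

theorem sqrt_sub_sq {a b : ℝ} (ha : 0 ≤ a) (hb : 0 ≤ b) :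
    (Real.sqrt a - Real.sqrt b) ^ 2 ≤ |a - b| := by
  have h1 : a - b = (Real.sqrt a - Real.sqrt b) * (Real.sqrt a + Real.sqrt b) := by
    have := Real.mul_self_sqrt ha
    have := Real.mul_self_sqrt hb
    nlinarith
  rw [h1, abs_mul, ← sq_abs, sq]
  apply mul_le_mul_of_nonneg_left _ (abs_nonneg _)
  rw [abs_of_nonneg (add_nonneg (Real.sqrt_nonneg a) (Real.sqrt_nonneg b))]
  have h2 := Real.sqrt_nonneg a
  have h3 := Real.sqrt_nonneg b
  rw [abs_le]
  constructor <;> linarith

/-- the inequality for a nonnegative function whose support has at most half of the points -/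
theorem key (hC : S_CORR) {V ι : Type} [Fintype V] [AddCommGroup V] [Fintype ι] [Nonempty ι]
    (s : ι → V) (η : ℝ) (h0 : 0 ≤ η) (h1 : η ≤ 1 / 4) (hG : Gap s η) (k : V → ℝ)
    (hk : ∀ x, 0 ≤ k x) (hs : 2 * (Finset.univ.filter fun x => k x ≠ 0).card ≤ Fintype.card V) :
    av k ≤ 2 * av fun x => av fun i => |k (x + s i) - k x| := by
  have hN : (0 : ℝ) < (Fintype.card V : ℝ) := by exact_mod_cast Fintype.card_pos
  set g : V → ℝ := fun x => Real.sqrt (k x) with hg
  have hgk : ∀ x, g x ^ 2 = k x := fun x => Real.sq_sqrt (hk x)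
  -- mean of `g`
  have hmean : av g * av g ≤ (1 / 2) * av k := by
    have hsum : ∑ x, g x = ∑ x ∈ Finset.univ.filter (fun x => k x ≠ 0), g x := by
      symm
      apply Finset.sum_subset (Finset.filter_subset _ _)
      intro x _ hx
      have : k x = 0 := by
        by_contra h
        exact hx (Finset.mem_filter.2 ⟨Finset.mem_univ _, h⟩)
      simp [hg, this]
    have hcs := sq_sum_le_card_mul_sum_sq (s := Finset.univ.filter (fun x => k x ≠ 0)) (f := g)
    rw [← hsum] at hcs
    have hle : ∑ x ∈ Finset.univ.filter (fun x => k x ≠ 0), g x ^ 2 ≤ ∑ x, k x := by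
      calc ∑ x ∈ Finset.univ.filter (fun x => k x ≠ 0), g x ^ 2
          = ∑ x ∈ Finset.univ.filter (fun x => k x ≠ 0), k x :=
            Finset.sum_congr rfl fun x _ => hgk x
        _ ≤ ∑ x, k x := Finset.sum_le_sum_of_subset_of_nonneg (Finset.filter_subset _ _)
            fun x _ _ => hk x
    have hs' : (2 : ℝ) * ((Finset.univ.filter fun x => k x ≠ 0).card : ℝ)
        ≤ (Fintype.card V : ℝ) := by exact_mod_cast hs
    have hkk : 0 ≤ ∑ x, k x := Finset.sum_nonneg fun x _ => hk x
    have hfin : (∑ x, g x) ^ 2 ≤ (1 / 2) * (Fintype.card V : ℝ) * ∑ x, k x := by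
      calc (∑ x, g x) ^ 2 ≤ ((Finset.univ.filter fun x => k x ≠ 0).card : ℝ)
            * ∑ x ∈ Finset.univ.filter (fun x => k x ≠ 0), g x ^ 2 := hcs
        _ ≤ ((Finset.univ.filter fun x => k x ≠ 0).card : ℝ) * ∑ x, k x :=
            mul_le_mul_of_nonneg_left hle (Nat.cast_nonneg _)
        _ ≤ (1 / 2) * (Fintype.card V : ℝ) * ∑ x, k x := by
            apply mul_le_mul_of_nonneg_right _ hkk
            linarith
    unfold av
    rw [div_mul_div_comm, div_le_iff₀ (by positivity)]
    calc (∑ x, g x) * ∑ x, g x = (∑ x, g x) ^ 2 := (sq _).symm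
      _ ≤ (1 / 2) * (Fintype.card V : ℝ) * ∑ x, k x := hfin
      _ = 1 / 2 * ((∑ x, k x) / (Fintype.card V : ℝ)) *
          ((Fintype.card V : ℝ) * (Fintype.card V : ℝ)) := by
          field_simp
  have havk : 0 ≤ av k := av_nonneg' hk
  have hgg : av (fun x => g x ^ 2) = av k := by
    congr 1
    funext x
    exact hgk x
  have hcorr := hC V ι s η h0 hG g g
  rw [hgg, Real.mul_self_sqrt havk] at hcorr
  -- expansion
  have hexp : (av fun x => av fun i => (g (x + s i) - g x) ^ 2)
      = 2 * av k - 2 * av (fun x => g x * av fun j => g (x + s j)) := by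
    have e1 : ∀ x, (av fun i => (g (x + s i) - g x) ^ 2)
        = ((av fun i => k (x + s i)) + k x) - 2 * (g x * av fun j => g (x + s j)) := by
      intro x
      have : (fun i => (g (x + s i) - g x) ^ 2)
          = fun i => (k (x + s i) + k x) - 2 * (g x * g (x + s i)) := by
        funext i
        rw [← hgk (x + s i), ← hgk x]
        ring
      rw [this, av_sub' (fun i => k (x + s i) + k x) (fun i => 2 * (g x * g (x + s i))),
        av_add' (fun i => k (x + s i)) (fun _ => k x), av_const',
        av_mul' 2 (fun i => g x * g (x + s i)), av_mul' (g x) (fun i => g (x + s i))]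
    have e2 : (fun x => av fun i => (g (x + s i) - g x) ^ 2)
        = fun x => ((av fun i => k (x + s i)) + k x)
          - 2 * (g x * av fun j => g (x + s j)) := funext e1
    rw [e2, av_sub' (fun x => (av fun i => k (x + s i)) + k x)
      (fun x => 2 * (g x * av fun j => g (x + s j))),
      av_add' (fun x => av fun i => k (x + s i)) (fun x => k x),
      av_mul' 2 (fun x => g x * av fun j => g (x + s j)), av_comm']
    have e3 : (fun i : ι => av fun x => k (x + s i)) = fun _ => av k := by
      funext i
      exact av_trans' k (s i)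
    rw [e3, av_const']
    ring
  have hle : (av fun x => av fun i => (g (x + s i) - g x) ^ 2)
      ≤ av fun x => av fun i => |k (x + s i) - k x| :=
    av_mono' fun x => av_mono' fun i => sqrt_sub_sq (hk _) (hk _)
  rw [hexp] at hle
  have hη : η * av k ≤ 1 / 4 * av k := mul_le_mul_of_nonneg_right h1 havk
  linarith

/-- a median -/
theorem median {V : Type} [Fintype V] [Nonempty V] (f : V → ℝ) :
    ∃ c : ℝ, 2 * (Finset.univ.filter fun x => c < f x).card ≤ Fintype.card V ∧
      2 * (Finset.univ.filter fun x => f x < c).card ≤ Fintype.card V := by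
  classical
  have hne : (Finset.univ.filter fun y => Fintype.card V ≤
      2 * (Finset.univ.filter fun x => f x ≤ f y).card).Nonempty := by
    obtain ⟨y, _, hy⟩ := Finset.exists_max_image (Finset.univ : Finset V) f
      Finset.univ_nonempty
    refine ⟨y, Finset.mem_filter.2 ⟨Finset.mem_univ _, ?_⟩⟩
    have : (Finset.univ.filter fun x => f x ≤ f y) = Finset.univ := by
      ext x
      simp [hy x (Finset.mem_univ _)]
    rw [this, Finset.card_univ]
    omega
  obtain ⟨y, hy, hmin⟩ := Finset.exists_min_image _ f hne
  have hy' := (Finset.mem_filter.1 hy).2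
  refine ⟨f y, ?_, ?_⟩
  · have hsum : (Finset.univ.filter fun x => f x ≤ f y).card
        + (Finset.univ.filter fun x => f y < f x).card = Fintype.card V := by
      have := Finset.card_filter_add_card_filter_not (s := (Finset.univ : Finset V))
        (fun x => f x ≤ f y)
      simp only [not_le] at this
      rw [Finset.card_univ] at this
      exact this
    omega
  · by_contra hcon
    push_neg at hcon
    have hne2 : (Finset.univ.filter fun x => f x < f y).Nonempty := by
      rw [← Finset.card_pos]
      omega
    obtain ⟨z, hz, hzmax⟩ := Finset.exists_max_image _ f hne2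
    have hz' := (Finset.mem_filter.1 hz).2
    have hsub : (Finset.univ.filter fun x => f x < f y)
        ⊆ (Finset.univ.filter fun x => f x ≤ f z) := by
      intro x hx
      exact Finset.mem_filter.2 ⟨Finset.mem_univ _, hzmax x hx⟩
    have hcard := Finset.card_le_card hsub
    have hzm := hmin z (Finset.mem_filter.2 ⟨Finset.mem_univ _, by omega⟩)
    linarith

theorem t_D0 (hC : S_CORR) : S_D0 := by
  intro V ι _ _ _ _ s η h0 h1 hG f
  obtain ⟨c, hc1, hc2⟩ := median f
  refine ⟨c, ?_⟩
  have hp := key hC s η h0 h1 hG (fun x => max (f x - c) 0) (fun x => le_max_right _ _) (by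
    refine le_trans (Nat.mul_le_mul_left 2 (Finset.card_le_card ?_)) hc1
    intro x hx
    have h := (Finset.mem_filter.1 hx).2
    refine Finset.mem_filter.2 ⟨Finset.mem_univ _, ?_⟩
    by_contra hcon
    exact h (max_eq_right (by linarith)))
  have hm := key hC s η h0 h1 hG (fun x => max (c - f x) 0) (fun x => le_max_right _ _) (by
    refine le_trans (Nat.mul_le_mul_left 2 (Finset.card_le_card ?_)) hc2
    intro x hx
    have h := (Finset.mem_filter.1 hx).2
    refine Finset.mem_filter.2 ⟨Finset.mem_univ _, ?_⟩
    by_contra hcon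
    exact h (max_eq_right (by linarith)))
  have habs : (fun x => |f x - c|) = fun x => max (f x - c) 0 + max (c - f x) 0 := by
    funext x
    rcases le_total (f x) c with h | h
    · rw [abs_of_nonpos (by linarith), max_eq_right (by linarith), max_eq_left (by linarith)]
      ring
    · rw [abs_of_nonneg (by linarith), max_eq_left (by linarith), max_eq_right (by linarith)]
      ring
  have hdiff : ∀ a b : ℝ, |max (a - c) 0 - max (b - c) 0| + |max (c - a) 0 - max (c - b) 0|
      = |a - b| := by
    intro a b
    rcases le_total a c with ha | ha <;> rcases le_total b c with hb | hb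
    · rw [max_eq_right (by linarith : a - c ≤ 0), max_eq_right (by linarith : b - c ≤ 0),
        max_eq_left (by linarith : (0 : ℝ) ≤ c - a), max_eq_left (by linarith : (0 : ℝ) ≤ c - b),
        sub_self, abs_zero, zero_add, abs_sub_comm]
      congr 1
      ring
    · rw [max_eq_right (by linarith : a - c ≤ 0), max_eq_left (by linarith : (0 : ℝ) ≤ b - c),
        max_eq_left (by linarith : (0 : ℝ) ≤ c - a), max_eq_right (by linarith : c - b ≤ 0),
        abs_of_nonpos (by linarith), abs_of_nonneg (by linarith), abs_of_nonpos (by linarith)]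
      ring
    · rw [max_eq_left (by linarith : (0 : ℝ) ≤ a - c), max_eq_right (by linarith : b - c ≤ 0),
        max_eq_right (by linarith : c - a ≤ 0), max_eq_left (by linarith : (0 : ℝ) ≤ c - b),
        abs_of_nonneg (by linarith), abs_of_nonpos (by linarith), abs_of_nonneg (by linarith)]
      ring
    · rw [max_eq_left (by linarith : (0 : ℝ) ≤ a - c), max_eq_left (by linarith : (0 : ℝ) ≤ b - c),
        max_eq_right (by linarith : c - a ≤ 0), max_eq_right (by linarith : c - b ≤ 0),
        sub_self, abs_zero, add_zero]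
      congr 1
      ring
  have hn : nrm1 (d0 s f)
      = (av fun x => av fun i => |max (f (x + s i) - c) 0 - max (f x - c) 0|)
        + av fun x => av fun i => |max (c - f (x + s i)) 0 - max (c - f x) 0| := by
    unfold nrm1 d0
    rw [← av_add']
    congr 1
    funext x
    rw [← av_add']
    congr 1
    funext i
    exact (hdiff _ _).symm
  rw [habs, av_add', hn]
  linarith

end Run7.h662.EX
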