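import Pool.Agent.Run7.h35.EX.Stm

set_option autoImplicit false

namespace Run7.h662.EX

open Run7.h35.EX

/-- lifting through `b` with values in a closed subspace -/
theorem lift_sub (hL : S_LIFT) {S A B : Type} (b : l1 A →L[ℝ] l1 B) (K : Submodule ℝ (l1 B))
    (hK : IsClosed (K : Set (l1 B))) (hb : ∀ y ∈ K, ∃ x, b x = y) (hbK : ∀ x, b x ∈ K)
    (T : l1 S →L[ℝ] l1 B) (hT : ∀ x, T x ∈ K) :
    ∃ T' : l1 S →L[ℝ] l1 A, ∀ x, b (T' x) = T x := by
  haveI : CompleteSpace K := hK.completeSpace_coe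
  obtain ⟨T', h⟩ := hL S (l1 A) K (b.codRestrict K hbK) (T.codRestrict K hT) (by
    rintro ⟨y, hy⟩
    obtain ⟨x, hx⟩ := hb y hy
    exact ⟨x, Subtype.ext hx⟩)
  refine ⟨T', fun x => ?_⟩
  have h2 := congrArg (fun f : l1 S →L[ℝ] K => ((f x : K) : l1 B)) h
  exact h2

theorem t_HOM (hL : S_LIFT) : S_HOM := by
  intro S0 S1 S2 a b ha hab hc hX
  obtain ⟨S', q, hq, T, ⟨e⟩⟩ := hX
  haveI : IsClosed (LinearMap.range b.toLinearMap : Set (l1 S0)) := hc
  have hbR : ∀ x, b x ∈ LinearMap.range b.toLinearMap := fun x => ⟨x, rfl⟩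
  have hRb : ∀ y ∈ LinearMap.range b.toLinearMap, ∃ x, b x = y := by
    rintro y ⟨x, hx⟩
    exact ⟨x, hx⟩
  -- the two lifts
  obtain ⟨u, hu⟩ := hL S' (l1 S0) (l1 S0 ⧸ LinearMap.range b.toLinearMap)
    (LinearMap.range b.toLinearMap).mkQL q (Submodule.mkQ_surjective _)
  obtain ⟨v, hv⟩ := hL S0 (l1 S') (l1 S0 ⧸ LinearMap.range b.toLinearMap) q
    (LinearMap.range b.toLinearMap).mkQL hq
  have hu' : ∀ x, (Submodule.Quotient.mk (u x) : l1 S0 ⧸ LinearMap.range b.toLinearMap) = q x :=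
    fun x => congrArg (fun f => f x) hu
  have hv' : ∀ x, q (v x) = (Submodule.Quotient.mk x : l1 S0 ⧸ LinearMap.range b.toLinearMap) :=
    fun x => congrArg (fun f => f x) hv
  -- `h0`
  obtain ⟨h0, hh0⟩ := lift_sub hL b _ hc hRb hbR (ContinuousLinearMap.id ℝ _ - u.comp v) (by
    intro x
    have h1 : (Submodule.Quotient.mk (x - u (v x)) :
        l1 S0 ⧸ LinearMap.range b.toLinearMap) = 0 := by
      rw [Submodule.Quotient.mk_sub, hu', hv', sub_self]
    exact (Submodule.Quotient.mk_eq_zero _).1 h1)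
  -- `u1`
  obtain ⟨u1, hu1⟩ := lift_sub hL b _ hc hRb hbR
    ((u.comp (LinearMap.ker q.toLinearMap).subtypeL).comp (e.symm : l1 T →L[ℝ] _)) (by
    intro x
    have h1 : (Submodule.Quotient.mk (u ((e.symm x : LinearMap.ker q.toLinearMap) : l1 S')) :
        l1 S0 ⧸ LinearMap.range b.toLinearMap) = 0 := by
      rw [hu']
      exact (e.symm x).2
    exact (Submodule.Quotient.mk_eq_zero _).1 h1)
  -- `v b` with values in `ker q`
  have hvb : ∀ x, (v.comp b) x ∈ LinearMap.ker q.toLinearMap := by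
    intro x
    change q (v (b x)) = 0
    rw [hv']
    exact (Submodule.Quotient.mk_eq_zero _).2 (hbR x)
  let vb : l1 S1 →L[ℝ] LinearMap.ker q.toLinearMap := (v.comp b).codRestrict _ hvb
  let w : l1 S1 →L[ℝ] l1 S1 :=
    ContinuousLinearMap.id ℝ _ - (u1.comp (e : _ →L[ℝ] l1 T)).comp vb - h0.comp b
  have hw : ∀ x, w x = x - u1 (e (vb x)) - h0 (b x) := fun x => rfl
  have hbw : ∀ x, b (w x) = 0 := by
    intro x
    rw [hw, map_sub, map_sub, hu1, hh0]
    change b x - u ((e.symm (e (vb x)) : LinearMap.ker q.toLinearMap) : l1 S')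
      - (b x - u (v (b x))) = 0
    rw [e.symm_apply_apply]
    change b x - u (v (b x)) - (b x - u (v (b x))) = 0
    exact sub_self _
  obtain ⟨h1, hh1⟩ := lift_sub hL a (LinearMap.ker b.toLinearMap)
    (ContinuousLinearMap.isClosed_ker b) (by
      intro y hy
      rw [← hab] at hy
      obtain ⟨x, hx⟩ := hy
      exact ⟨x, hx⟩) (by
      intro x
      rw [← hab]
      exact ⟨x, rfl⟩) w hbw
  refine ⟨h1, ?_⟩
  ext1 x
  apply ha
  change a (h1 (a x)) = a x
  have hba : b (a x) = 0 := by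
    have : a x ∈ LinearMap.ker b.toLinearMap := by
      rw [← hab]
      exact ⟨x, rfl⟩
    exact this
  have hvba : vb (a x) = 0 := by
    apply Subtype.ext
    change v (b (a x)) = 0
    rw [hba, map_zero]
  rw [hh1, hw, hba, hvba, map_zero, map_zero, map_zero, sub_zero, sub_zero]

end Run7.h662.EX
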